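import Pool.Agent.Helper49K.Raw2

/-!
# Endomorphisms of the square of a motive at one prime number, and all Tate classes at all primes

Let `M` be the direct sum of pure motives `M i` (of dimension `n i` and weight `w i`; of André, or for
absolute Hodge cycles) over a number field `K`, or over a finitely generated field `k`, the function
field of a variety over `ℚ`, with good reduction at a closed point `s` of the variety with residue
field `K`. `Γ` is the Galois group of `K` (with `s` the identity) or the fundamental group of the variety. Let `ρ ℓ` be the `ℓ`-adic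
realizations, for all prime numbers `ℓ`, and let `𝔤` be the Lie algebra of the motivic Galois group of `M`
(over an algebraically closed field, in the Betti realization, a Lie algebra over `ℚ`). The structure
`Realizations` (library `Pool.Agent.N203.RE`) states the properties which are used: good reduction at
the point `s` outside of a finite set of places, with pure Frobenius polynomials in `ℚ[X]` which
are independent of `ℓ`; `𝔤` is reductive, determined by the tensors which it kills, and the tensors
killed by `𝔤 ⊗ ℚ_ℓ` are Tate tensors. `IntegralAt`: `q ^ c` times the Frobenius eigenvalues are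
algebraic integers.

Suppose that the centre of `𝔤` consists of multiples of the weight operator (`CentreIsWeights`), and that
for ONE prime number `ℓ₀`, for the motive `M` (the member `M_s` over `K`, if `k` is not `K`;
`TateInDegreeFour`),

* the `ℓ₀`-adic realization is semisimple (`Semisimple`),
* the Tate conjecture holds at `ℓ₀` for the endomorphisms of `M` over finite extensions of `K`
  (`TateEndomorphisms`),
* the Tate conjecture holds at `ℓ₀` for the endomorphisms of `Sym² M` and `Λ² M` over `K` (`SquareTate`: the
  endomorphisms of the tensor square of the realization which commute with the Galois group of `K` and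
  with the exchange of the factors commute with `𝔤`).

**Theorem.** Let `ℓ` be ANY prime number at which the realization is semisimple; for `K = ℚ` this is no
condition, it is a part of the result (`SemisimpleOrRational`, for `M` in (1) and (2), for `M_s` in (3)).

(1) The `ℓ`-adic realization of `M` is semisimple over all finite extensions; the Lie algebra of the endomorphisms which kill all Tate tensors at `ℓ` is a reductive
subalgebra of `𝔤 ⊗ ℚ_ℓ` of the same rank (`SameRanks`); and ALL Tate tensors at `ℓ` (in any number of
variables, over all finite extensions) are motivated if and only if this is so for the endomorphisms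
of the realization of `M`. So the motivic Tate conjecture for `M` at all prime numbers, in all degrees, is reduced to its
part for endomorphisms at all prime numbers (with semisimplicity, if `K` is not `ℚ`), together with
semisimplicity and the part in degree four at ONE prime number.

(2) If the motivic Tate conjecture holds for `M` at `ℓ`, the image of the Galois group is open in the
`ℓ`-adic motivic Galois group: every element of `𝔤 ⊗ ℚ_ℓ` is, up to a power of `ℓ`, the logarithm of an
element of the image (`OpenImage`).

(3) Suppose that moreover the algebraic monodromy group of `M_s` at `ℓ₀` is connected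
(`ConnectedMonodromy`). Then the motivic Tate conjecture for `M_s` at `ℓ` (over all finite extensions) is
equivalent to its part for the endomorphisms of `M_s` over `K` itself; if `𝔤` is of type A, it is
equivalent to its part for the endomorphisms in the centre of the algebra of these endomorphisms (the
isotypic decomposition); and if `K = ℚ` and `𝔤` is of type A, it holds for `M_s` at every prime number `ℓ`,
without any condition at `ℓ` (`FromBaseEndomorphisms`, `IsTypeA`).

For abelian varieties the endomorphisms are known (Faltings), and the independence of `ℓ` of the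
Mumford-Tate conjecture is the theorem of Larsen and Pink. For general motives it was known that the
rank of the monodromy group is independent of `ℓ` (Serre); here the rank is obtained from the Tate
conjecture for tensors in four variables at one prime number.

## The proof

(a) At `ℓ₀`, let `𝔩` be the tangent space at `1` of the image of the Galois group, in the endomorphisms
of the realization `V`. It is a Lie algebra; its elements are the logarithms of elements of the
image, up to powers of `ℓ₀` (theory of `ℓ`-adic Lie groups, files `TAN1`, ..., `EXP`), and they kill all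
Tate tensors. Let `L` be the Lie algebra of the endomorphisms which kill all Tate tensors, and
`𝔪` the sum of `𝔩` and of the centre of `L`. The trace form of `V` is not degenerate on `𝔪`: by Cartan's
criterion and semisimplicity, the elements of its radical are central, so they commute with an
open subgroup, and are in the centre of `L`, a torus. So the Casimir operator of `𝔪` on `V ⊗ V` exists;
it commutes with the Galois group and with the exchange of the factors. By the condition in
degree four, it commutes with `𝔤`, which implies that `𝔤` normalizes `𝔪`; the component of an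
element of `𝔤` which is orthogonal to `𝔪` commutes with `𝔪`, and by the condition on endomorphisms it is
central in `𝔤`. So `𝔤` is the sum of `𝔩` and of its centre. By the Riemann hypothesis (Deligne) for a
Frobenius element, `𝔩` is not orthogonal to the weight operator, and it follows that `𝔩 = 𝔤 ⊗ ℚ_ℓ₀`.

(b) There is an element of `𝔤 ⊗ ℚ_ℓ₀` with `r` eigenvalues which are linearly independent over `ℚ`, where
`r` is the rank (`GX`); up to a power of `ℓ₀` it is a logarithm of an element of the Galois group, which
has `r` multiplicatively independent eigenvalues (`EIG`). By Chebotarev's theorem and the finiteness of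
the types of relations (libraries `Pool.Agent.R931`, `Pool.Agent.Helper49K`) there are Frobenius elements of
maximal rank, and the theorem about rank and endomorphisms (library `Pool.Agent.N203.RE`) gives (1) at
every `ℓ`. Part (2) is (a) at `ℓ`. Part (3) uses the libraries `Pool.Agent.Helper49C` and
`Pool.Agent.Helper49K`.

Pieces of the proof were written by helper58 (tangent spaces, logarithms, exponential), helper62
(trace forms, semisimple parts, pigeonhole), helper74 (weights, density of ranks), helper86
(filtration, eigenvalues of logarithms, elements of maximal rank) and helper98 (roots in compact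
groups, Cartan's criterion); see the files of `Pool.Agent.Helper49P`.
-/

set_option autoImplicit false

noncomputable section

namespace Pool.Agent.Results.MP_bbcdf5_ag.FourVariablesOnePrime

open NumberField IsDedekindDomain Module TensorProduct Filter Topology Pool.Agent.Y114.RM
  Pool.Agent.Y114.GF Pool.Agent.Y114.TF Pool.Agent.R931.IR Pool.Agent.N203.RE
  Pool.Agent.Helper49C

section general

variable {k V Γ : Type} [Field k] [AddCommGroup V] [Module k V] [Group Γ]
  (ρ : Representation k Γ V) (𝔤 : Submodule k (End k V))

/-- The representation is semisimple: every stable subspace has a stable complement. -/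
def IsSemisimpleRep : Prop := ∀ U : Submodule k V, (∀ γ : Γ, ∀ x ∈ U, ρ γ x ∈ U) →
  ∃ U' : Submodule k V, (∀ γ : Γ, ∀ x ∈ U', ρ γ x ∈ U') ∧ IsCompl U U'

/-- The endomorphism `P` of `V ⊗ V` commutes with the whole group `Γ`. -/
def CommutesWithGroup (P : End k (V ⊗[k] V)) : Prop :=
  ∀ γ : Γ, P * TensorProduct.map (ρ γ) (ρ γ) = TensorProduct.map (ρ γ) (ρ γ) * P

/-- The endomorphism `P` of `V ⊗ V` commutes with the exchange of the two factors; so it is given by an
endomorphism of the symmetric square and one of the exterior square of `V`. -/
def CommutesWithSwap (P : End k (V ⊗[k] V)) : Prop :=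
  ∀ u w : V, TensorProduct.comm k V V (P (u ⊗ₜ[k] w)) = P (w ⊗ₜ[k] u)

/-- The action of the element `X` of a Lie algebra on `V ⊗ V`: `X ⊗ 1 + 1 ⊗ X`. -/
def onSquare (X : End k V) : End k (V ⊗[k] V) := X.rTensor V + X.lTensor V

/-- The endomorphisms of `V ⊗ V` which commute with the whole group `Γ` and with the exchange of the
factors commute with `𝔤`. -/
def SquareTate : Prop :=
  ∀ P : End k (V ⊗[k] V), CommutesWithGroup ρ P → CommutesWithSwap P →
    ∀ X ∈ 𝔤, P * onSquare X = onSquare X * P

/-- The Zariski closure of the image of `Γ` is connected: if a polynomial in the linear functionals `ξ`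
of the endomorphisms `ρ γ` is zero for all `γ` in a subgroup of finite index, it is zero for all `γ`. -/
def ConnectedMonodromy : Prop :=
  ∀ Δ : Subgroup Γ, Δ.FiniteIndex → ∀ f : MvPolynomial (End k V →ₗ[k] k) k,
    (∀ γ ∈ Δ, MvPolynomial.eval (fun ξ => ξ (ρ γ)) f = 0) →
      ∀ γ : Γ, MvPolynomial.eval (fun ξ => ξ (ρ γ)) f = 0

/-- Every element of the centre of `𝔤` is one of the maps `F c`. -/
def CentreGivenBy (F : k → V → V) : Prop :=
  ∀ Z ∈ 𝔤, (∀ Y ∈ 𝔤, Z * Y = Y * Z) → ∃ c : k, ∀ x : V, Z x = F c x

/-- The endomorphisms in the centre of the algebra of the endomorphisms which commute with `Γ` commute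
with `𝔤`. -/
def CentralEndosCommute : Prop :=
  ∀ Y : End k V, (∀ γ : Γ, ρ γ * Y = Y * ρ γ) →
    (∀ Z : End k V, (∀ γ : Γ, ρ γ * Z = Z * ρ γ) → Y * Z = Z * Y) → ∀ X ∈ 𝔤, X * Y = Y * X

end general

section padic

variable {ℓ : ℕ} [Fact ℓ.Prime] {V Γ : Type} [AddCommGroup V] [Module ℚ_[ℓ] V] [Group Γ]

/-- The endomorphism `ℓ ^ m X` is the logarithm of `g`: the limit of `(g ^ (ℓ ^ k) - 1) / ℓ ^ k` (tested
with the vectors `x` and the linear functionals `f`; `V` is of finite dimension). -/
def IsLogarithm (g X : End ℚ_[ℓ] V) (m : ℕ) : Prop := ∀ (x : V) (f : V →ₗ[ℚ_[ℓ]] ℚ_[ℓ]),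
  Tendsto (fun k : ℕ => f ((g ^ (ℓ ^ k)) x - x) / (ℓ : ℚ_[ℓ]) ^ k) atTop
    (𝓝 ((ℓ : ℚ_[ℓ]) ^ m * f (X x)))

/-- Every element of `𝔥` is, up to a power of `ℓ`, the logarithm of an element of the image of `Γ`. So
`𝔥` is contained in the Lie algebra of the `ℓ`-adic Lie group given by the image of `Γ`. -/
def OpenImage (ρ : Representation ℚ_[ℓ] Γ V) (𝔥 : Submodule ℚ_[ℓ] (End ℚ_[ℓ] V)) : Prop :=
  ∀ X ∈ 𝔥, ∃ (m : ℕ) (γ : Γ), IsLogarithm (ρ γ) X m

end padic

section typeA

variable {V : Type} [AddCommGroup V] [Module ℂ V] (G : Submodule ℂ (End ℂ V))

/-- `f` is a homomorphism of Lie algebras on `G`. -/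
def IsLieMap {N : ℕ} (f : End ℂ V →ₗ[ℂ] Matrix (Fin N) (Fin N) ℂ) : Prop :=
  ∀ X ∈ G, ∀ Y ∈ G, f (X * Y - Y * X) = f X * f Y - f Y * f X

/-- The Lie algebra `G` of complex operators is of type A: there are matrix sizes `N j` and
homomorphisms `f j` of Lie algebras from `G` to the algebras of complex matrices of size `N j`; the
elements of `G` killed by all `f j` are central; and all families of matrices with trace zero are of
the form `(f j X)`. -/
def IsTypeA : Prop := ∃ (J : ℕ) (N : Fin J → ℕ) (f : ∀ j, End ℂ V →ₗ[ℂ] Matrix (Fin (N j)) (Fin (N j)) ℂ),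
  (∀ j, IsLieMap G (f j)) ∧ (∀ X ∈ G, (∀ j, f j X = 0) → ∀ Y ∈ G, X * Y = Y * X) ∧
    ∀ A : (∀ j, Matrix (Fin (N j)) (Fin (N j)) ℂ), (∀ j, (A j).trace = 0) → ∃ X ∈ G, ∀ j, f j X = A j

end typeA

section motives

variable {Γ : Type} [Group Γ] {ι : Type} {n : ι → ℕ}

/-- Multiplication by `c * w i` on the `i`-th summand. -/
def byWeights (w : ι → ℤ) (c : ℚ) (x : Betti n) : Betti n := fun i j => c * w i * x i j

/-- The elements of the centre of `𝔤` are multiples of the weight operator (multiplication by `w i` on
the `i`-th summand). -/
def CentreIsWeights (𝔤 : Submodule ℚ (End ℚ (Betti n))) (w : ι → ℤ) : Prop :=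
  CentreGivenBy 𝔤 (byWeights w)

/-- The numbers `(q v) ^ c * a`, for the Frobenius eigenvalues `a` at the places `v` outside of `S`, are
algebraic integers. -/
def IntegralAt {K : Type} [Field K] [NumberField K] (S : Set (HeightOneSpectrum (𝓞 K)))
    (P : HeightOneSpectrum (𝓞 K) → ι → Polynomial ℚ) (c : ℕ) : Prop :=
  ∀ v ∉ S, ∀ i, ∀ a : ℂ, Polynomial.aeval a (P v i) = 0 → IsIntegral ℤ ((q v : ℂ) ^ c * a)

variable {ℓ : ℕ} [Fact ℓ.Prime]

/-- The realization is semisimple, or the degree `d` of the number field is `1` (the field is `ℚ`). -/
def SemisimpleOrRational (d : ℕ) (ρ : Reps Γ n ℓ) : Prop := d = 1 ∨ IsSemisimpleRep (sumRep ρ)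

/-- The conditions at one prime number: the realization is semisimple, and the Tate conjecture holds for
the endomorphisms of `M` over finite extensions, and for those of the symmetric and the exterior square
of `M` over the base field. -/
structure TateInDegreeFour (ρ : Reps Γ n ℓ) (𝔤 : Submodule ℚ (End ℚ (Betti n))) : Prop where
  semisimple : IsSemisimpleRep (sumRep ρ)
  endomorphisms : TateEndomorphisms ρ 𝔤
  square : SquareTate (sumRep ρ) (scalars ℓ 𝔤)

/-- The realization is semisimple over all finite extensions, all Tate tensors are motivated if and only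
if all Tate endomorphisms are, and in this case the image is open. -/
structure FromEndomorphisms (ρ : Reps Γ n ℓ) (𝔤 : Submodule ℚ (End ℚ (Betti n))) : Prop where
  semisimple : Semisimple ρ
  tate : TateMotivated ρ 𝔤 ↔ TateEndomorphisms ρ 𝔤
  openImage : TateMotivated ρ 𝔤 → OpenImage (sumRep ρ) (scalars ℓ 𝔤)

/-- All Tate tensors are motivated if and only if all Tate endomorphisms over the base field (of degree
`d`) are; if `𝔤 ⊗ ℂ` is of type A, if and only if the central ones are; and this is so if `𝔤 ⊗ ℂ` is of
type A and `d = 1`. -/
structure FromBaseEndomorphisms (d : ℕ) (ρ : Reps Γ n ℓ) (𝔤 : Submodule ℚ (End ℚ (Betti n))) :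
    Prop where
  tate : TateMotivated ρ 𝔤 ↔ EndosOverBase ρ 𝔤
  central : IsTypeA (bcS ℂ 𝔤) → (TateMotivated ρ 𝔤 ↔ CentralEndosCommute (sumRep ρ) (scalars ℓ 𝔤))
  typeA : d = 1 → IsTypeA (bcS ℂ 𝔤) → TateMotivated ρ 𝔤

/-- The rank of `𝔤` is `r`, and for all `ℓ` (with a semisimple realization, if `d ≠ 1`) the Lie algebra
of the endomorphisms which kill all Tate tensors at `ℓ` is a reductive subalgebra of `𝔤 ⊗ ℚ_ℓ` of rank
at least `r`. -/
def SameRanks (d : ℕ) (ρ : ∀ (ℓ : ℕ) [Fact ℓ.Prime], Reps Γ n ℓ)
    (𝔤 : Submodule ℚ (End ℚ (Betti n))) : Prop :=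
  ∃ r, RatRankLE 𝔤 r ∧ ∀ (ℓ : ℕ) [Fact ℓ.Prime], SemisimpleOrRational d (ρ ℓ) →
    MaximalRank (ρ ℓ) 𝔤 r

end motives

/-- **Theorem.** Let `M` be a direct sum of pure motives over a number field `K` (or over a finitely
generated field, with a closed point `s` of a model with residue field `K`) whose motivic Lie algebra
`𝔤` has the centre given by the weights. Suppose that at ONE prime number `ℓ₀` the realization of `M_s` is
semisimple, and the Tate conjecture holds for the endomorphisms of `M_s` over finite extensions and
for the endomorphisms of the symmetric and the exterior square of `M_s` over `K`. Then at EVERY prime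
number `ℓ` (with a semisimple realization if `K ≠ ℚ`; for `K = ℚ` the realization is semisimple) the
realization of `M` is of maximal rank, and the motivic Tate conjecture for `M` is equivalent to its
part for endomorphisms, and implies the open image. If the monodromy group of `M_s` at `ℓ₀` is
connected, then at every such `ℓ` the conjecture for `M_s` is equivalent to its part for endomorphisms
over `K` (for type A: the central ones), and for `K = ℚ` it holds if `𝔤` is of type A. -/
theorem result {K : Type} [Field K] [NumberField K] {Γ : Type} [Group Γ] [TopologicalSpace Γ]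
    [IsTopologicalGroup Γ] [CompactSpace Γ] {ι : Type} [Fintype ι] [DecidableEq ι] {n : ι → ℕ}
    -- the realizations and the motivic Lie algebra
    (s : Gal(AlgebraicClosure K/K) →* Γ) (w : ι → ℤ) (S : Set (HeightOneSpectrum (𝓞 K)))
    (P : HeightOneSpectrum (𝓞 K) → ι → Polynomial ℚ) (ρ : ∀ (ℓ : ℕ) [Fact ℓ.Prime], Reps Γ n ℓ)
    (𝔤 : Submodule ℚ (End ℚ (Betti n))) (h : Realizations s w S P ρ 𝔤)
    (c : ℕ) (hint : IntegralAt S P c) (hcen : CentreIsWeights 𝔤 w)
    -- one prime number
    (ℓ₀ : ℕ) [Fact ℓ₀.Prime] (h₀ : TateInDegreeFour (restrictTo (ρ ℓ₀) s) 𝔤) :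
    -- every prime number
    SameRanks (Module.finrank ℚ K) ρ 𝔤 ∧
    (∀ (ℓ : ℕ) [Fact ℓ.Prime], SemisimpleOrRational (Module.finrank ℚ K) (ρ ℓ) →
      FromEndomorphisms (ρ ℓ) 𝔤) ∧
    (ConnectedMonodromy (sumRep (restrictTo (ρ ℓ₀) s)) → ∀ (ℓ : ℕ) [Fact ℓ.Prime],
      SemisimpleOrRational (Module.finrank ℚ K) (restrictTo (ρ ℓ) s) →
        FromBaseEndomorphisms (Module.finrank ℚ K) (restrictTo (ρ ℓ) s) 𝔤) := by
  obtain ⟨h1, h2, h3⟩ := Pool.Agent.Helper49K.four_all2 h hint hcen h₀.semisimple
    h₀.endomorphisms h₀.square
  exact ⟨h1, fun ℓ _ hℓ => ⟨(h2 ℓ hℓ).1, (h2 ℓ hℓ).2.1, (h2 ℓ hℓ).2.2⟩,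
    fun hc ℓ _ hℓ => ⟨(h3 hc ℓ hℓ).1, (h3 hc ℓ hℓ).2.1, (h3 hc ℓ hℓ).2.2⟩⟩

end Pool.Agent.Results.MP_bbcdf5_ag.FourVariablesOnePrime
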