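import Mathlib
import Pool.Agent.R918.Ell2
import Pool.Agent.Helper43y.Mot3

/-!
# The motivic Tate conjecture for motives with isolated pairs of eigenvalues

Let `k` be a finitely generated field of characteristic zero and let `M i` be finitely many motives over
`k` (of André, or for absolute Hodge cycles), pure of the same weight `w`; let `V i = ℚ_ℓ ^ (n i)` be
their `ℓ`-adic realizations, with the actions `ρ i` of the Galois group `Γ` of `k`, and let `M` be the
direct sum of the `M i`. Let `𝔤` be the Lie algebra of the `ℓ`-adic motivic Galois group of `M`; it acts on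
the sum of the `V i`. It is reductive, it is determined by the tensors which it kills, and these are
Tate tensors, since motivated classes are Tate classes (these properties are collected in `IsMotivic`,
see `Motivic`).

The motivic Tate conjecture for `M`, up to finite groups (equivalently, the motivic Mumford-Tate
conjecture, which is equivalent to the motivic Tate conjecture, see the problem), says that the
representation of `Γ` is semisimple, and that the Tate tensors (in any number of variables, in `V` and
its dual space, fixed by a subgroup of finite index of `Γ`) are exactly the tensors killed by `𝔤`;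
equivalently, the identity component of the `ℓ`-adic monodromy group is the identity component of the
motivic Galois group (`AllTate`).

Let the motives `M i` be polarized (`Polarized`: there are nondegenerate symmetric or alternating forms
`M i ⊗ M i → 1(-w)`) with `End(M i) = ℚ` over the algebraic closure (`ScalarEnd`: the endomorphisms of
`V i` which commute with `𝔤` are scalars). Suppose that **one** element `γ` of `Γ` (for instance a
Frobenius element) is diagonalizable, and has on each `V i` an *isolated pair* of eigenvalues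
(`IsolatedPairs`): there are two eigenvalues `α p`, `α q` on `V i` such that the function `h` on the
indices of all the eigenvalues of `γ` on the sum of the `V j`, with `h p = 1`, `h q = -1` and `h = 0`
elsewhere, is additive for the products of two eigenvalues: if `α a * α b = α c * α d` then
`h a + h b = h c + h d`.

**Theorem.**

* The conjecture holds for such a motive `M` (and so for all motives in the tensor category generated by
  `M`) if and only if the realization of `M` is semisimple and the Tate conjecture (with motivated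
  cycles) holds for the endomorphisms of `M` (`EndTate`: the endomorphisms which commute with a
  subgroup of finite index of `Γ` commute with `𝔤`).
* It holds if (`GoodPolys`) for one element of `Γ` the characteristic polynomials on the `V i` are
  irreducible over `ℚ_ℓ` and different, and the product of these polynomials has no multiple roots and
  no quotients of two roots which are roots of unity, different from `1`, and if for each `i` an
  element of `Γ` has a characteristic polynomial on `V i` without multiple roots and without such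
  quotients, with one root in `ℚ_ℓ`.

So for a single motive `M` with `End(M) = ℚ`, of any weight, for which one Frobenius polynomial has an
isolated pair of roots, the Mumford-Tate conjecture is equivalent to the statement that the
representation of open subgroups of `Γ` is absolutely irreducible.

Example (`Pool/Agent/Helper43y/Tra.lean`, `add_of_hom`). Two roots `x`, `y` with `x ^ k ≠ y ^ k` for `k ≤ 4` are an
isolated pair if the Galois group of the product of the characteristic polynomials contains the
transposition of `x` and `y`; the other roots may have many multiplicative relations. The same holds if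
a valuation has the values `c + 1`, `c - 1` at `x`, `y` and `c` at the other roots. For instance the `M i`
may be the primitive parts of the cohomology of hypersurfaces or complete intersections, whose motivic
Galois groups, if they are not finite, may be full orthogonal or symplectic groups of any size. There
is no condition on Hodge numbers, on inertia groups or on the topology of the image of `Γ`.

## Proof

Let `L` be the Lie algebra of the endomorphisms of `V` which kill all Tate tensors. It is contained in
`𝔤` and it is normalized by `Γ`. By the theorem on bicommutants and the condition on the endomorphisms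
`L ⊗ ℂ` generates the same associative algebra as `𝔤 ⊗ ℂ`, and so it acts irreducibly on the `V i ⊗ ℂ`; for
`w ≠ 0` it contains the scalars, since one element of `Γ` acts purely of weight `w`. The subalgebra of
the skew elements of `L ⊗ ℂ` is graded by the functions `h`, since it is normalized by `γ`; its elements of
degree `-1` vanish on all the other summands, and they have rank at most two. It is shown by a direct
computation (`Pool.Agent.Helper43y.Alg.all`, without the classification of semisimple Lie algebras and of
their irreducible representations) that they generate the orthogonal or symplectic Lie algebra of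
`V i ⊗ ℂ`. So `L ⊗ ℂ` contains the sum of these Lie algebras, and `𝔤 ⊗ ℂ` is contained in this sum and the
scalars.
-/

open Module TensorProduct

noncomputable section

namespace Pool.Agent.Results.MP_bbcdf5_ag.IsolatedPairMotives

open Pool.Agent.Y114.TF Pool.Agent.Y114.RM Pool.Agent.H204R3.GP Pool.Agent.R913.Adj

/-! ### Representations and the motivic Lie algebra -/

section tate

variable {k V Γ : Type} [Field k] [AddCommGroup V] [Module k V] [Group Γ]
  (ρ : Representation k Γ V) (𝔤 : Submodule k (End k V))

/-- The representation is semisimple under all subgroups of finite index, and the Tate tensors are the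
tensors killed by `𝔤`. -/
def IsFull : Prop :=
  FiniteIndexSemisimple ρ ∧
    ∀ (m : ℕ) (φ : Tensor k V m), TateTensor ρ φ ↔ ∀ X ∈ 𝔤, KillsTensor X φ

/-- An endomorphism which commutes with a subgroup of finite index of `Γ` commutes with `𝔤`. -/
def IsEndTate : Prop :=
  ∀ P : End k V, (∃ Δ : Subgroup Γ, Δ.FiniteIndex ∧ ∀ γ ∈ Δ, P * ρ γ = ρ γ * P) →
    ∀ X ∈ 𝔤, X * P = P * X

end tate

section forms

variable {k V : Type} [Field k] [AddCommGroup V] [Module k V]

/-- The form `b` is nondegenerate and symmetric or alternating. -/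
def IsForm (b : V →ₗ[k] V →ₗ[k] k) : Prop :=
  ((∀ x y, b x y = b y x) ∨ ∀ x, b x x = 0) ∧ ∀ x, (∀ y, b x y = 0) → x = 0

/-- The operator `t` is diagonal in the basis `s`, with the eigenvalues `α p`. -/
def IsDiagonal {W κ : Type} [AddCommGroup W] [Module ℂ W] (t : End ℂ W) (s : Basis κ ℂ W)
    (α : κ → ℂˣ) : Prop :=
  ∀ p, t (s p) = (α p : ℂ) • s p

/-- The function with the value `1` at `a₀`, `-1` at `a₁` and `0` at the other indices. -/
def pairFn {κ : Type} [DecidableEq κ] (a₀ a₁ a : κ) : ℤ := if a = a₀ then 1 else if a = a₁ then -1 else 0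

/-- Isolated pair of eigenvalues: the function `pairFn` is additive for the products of two of the
numbers `α a`. -/
def IsIsolated {κ : Type} [DecidableEq κ] (α : κ → ℂˣ) (a₀ a₁ : κ) : Prop :=
  a₀ ≠ a₁ ∧ ∀ a b c d, α a * α b = α c * α d →
    pairFn a₀ a₁ a + pairFn a₀ a₁ b = pairFn a₀ a₁ c + pairFn a₀ a₁ d

end forms

section sums

variable {k : Type} [Field k] {ι : Type} {V : ι → Type} [∀ i, AddCommGroup (V i)]
  [∀ i, Module k (V i)] {Γ : Type} [Group Γ]

/-- The group element `γ` multiplies the forms `b i` by a common factor. -/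
def Scales (b : ∀ i, V i →ₗ[k] V i →ₗ[k] k) (ρ : ∀ i, Representation k Γ (V i)) (γ : Γ) : Prop :=
  ∃ c : k, c ≠ 0 ∧ ∀ i x y, b i (ρ i γ x) (ρ i γ y) = c * b i x y

/-- The element `X` of the Lie algebra multiplies the forms `b i` by `c`. -/
def ScalesBy (b : ∀ i, V i →ₗ[k] V i →ₗ[k] k) (X : End k (∀ i, V i)) (c : k) : Prop :=
  ∀ (i : ι) (x y : ∀ i, V i), b i (X x i) (y i) + b i (x i) (X y i) = c * b i (x i) (y i)

/-- There are forms as in `Polarized`. -/
def IsPolarized (ρ : ∀ i, Representation k Γ (V i)) (𝔤 : Submodule k (End k (∀ i, V i)))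
    (w : ℤ) : Prop :=
  ∃ b : ∀ i, V i →ₗ[k] V i →ₗ[k] k, (∀ i, IsForm (b i)) ∧ (∀ γ, Scales b ρ γ) ∧
    ∀ X ∈ 𝔤, ∃ c : k, (w = 0 → c = 0) ∧ ScalesBy b X c

variable [DecidableEq ι]

/-- The endomorphisms of the summands which commute with the action of `𝔤` are scalars. -/
def IsScalarEnd (𝔤 : Submodule k (End k (∀ i, V i))) : Prop :=
  ∀ (i : ι) (f : End k (V i)), (∀ X ∈ 𝔤, ∀ v, f (X (Pi.single i v) i) = X (Pi.single i (f v)) i) →
    ∃ c : k, ∀ v, f v = c • v

/-- One element `γ` is diagonalizable over the complex numbers, with the eigenvalues `α ⟨i, p⟩`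
on the `i`-th summand, and on each summand there is an isolated pair (among all the eigenvalues on
the direct sum). -/
def HasIsolatedPairs [Algebra k ℂ] (ρ : ∀ i, Representation k Γ (V i)) : Prop :=
  ∃ (γ : Γ) (n : ι → ℕ) (s : ∀ i, Basis (Fin (n i)) ℂ (ℂ ⊗[k] V i))
    (α : (Σ i, Fin (n i)) → ℂˣ),
    (∀ i, IsDiagonal ((ρ i γ).baseChange ℂ) (s i) fun p => α ⟨i, p⟩) ∧
      ∀ i, ∃ p q : Fin (n i), IsIsolated α ⟨i, p⟩ ⟨i, q⟩

end sums

section props

variable (Γ : Type) [Group Γ] {ι : Type} (n : ι → ℕ) (ℓ : ℕ) [Fact ℓ.Prime]

/-- Representations of `Γ` on the spaces `ℚ_ℓ ^ (n i)`. -/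
abbrev Reps : Type := ∀ i, Representation ℚ_[ℓ] Γ (Fin (n i) → ℚ_[ℓ])

/-- Spaces of endomorphisms of the direct sum of the spaces `ℚ_ℓ ^ (n i)`. -/
abbrev EndSpace : Type := Submodule ℚ_[ℓ] (End ℚ_[ℓ] (∀ i, Fin (n i) → ℚ_[ℓ]))

variable {Γ n ℓ} (ρ : Reps Γ n ℓ) (𝔤 : EndSpace n ℓ)

/-- The representations are continuous. -/
def Conts [TopologicalSpace Γ] : Prop := ∀ i, Continuous fun g => LinearMap.toMatrix' (ρ i g)

/-- Some element of `Γ` acts purely of the weight `w` on all the representations: its characteristic
polynomials are rational, with all roots of absolute value `q ^ (w / 2)` for some `q > 1`. -/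
def Pure (w : ℤ) : Prop := ∃ γ : Γ, ActsPurely ρ (fun _ => w) γ

/-- The motives are polarized: there are nondegenerate forms `M i ⊗ M i → 1(-w)`, symmetric or
alternating. They are multiplied by a common factor under the elements of `Γ` and of `𝔤`, and they are
invariant under `𝔤` if `w = 0` (see `IsPolarized`). -/
def Polarized (w : ℤ) : Prop := IsPolarized ρ 𝔤 w

variable [Fintype ι] [DecidableEq ι]

/-- One element of `Γ` has an isolated pair of eigenvalues on each summand (see
`HasIsolatedPairs`). -/
def IsolatedPairs [Algebra ℚ_[ℓ] ℂ] : Prop := HasIsolatedPairs ρ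

/-- `𝔤` has the properties of the Lie algebra of the motivic Galois group (see `IsMotivic`). -/
def Motivic : Prop := IsMotivic ρ 𝔤

/-- `End(M i) = ℚ`: the endomorphisms of the summands which commute with the action of `𝔤` are
scalars (see `IsScalarEnd`). -/
def ScalarEnd : Prop := IsScalarEnd 𝔤

/-- The direct sum is semisimple as a representation of every subgroup of finite index. -/
def Semisimple : Prop := FiniteIndexSemisimple (sumRep ρ)

/-- The conjecture for the direct sum (see `IsFull`). -/
def AllTate : Prop := IsFull (sumRep ρ) 𝔤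

/-- The Tate conjecture for the endomorphisms of the direct sum (see `IsEndTate`). -/
def EndTate : Prop := IsEndTate (sumRep ρ) 𝔤

end props

/-! ### Polynomials -/

/-- `f` has `deg f` different roots in an extension field, and no quotient of two different roots is a
root of unity. -/
def NeatPoly {k : Type} [Field k] (f : Polynomial k) : Prop :=
  ∃ (Ω : Type) (_ : Field Ω) (_ : Algebra k Ω) (s : Finset Ω),
    (∀ a ∈ s, Polynomial.aeval a f = 0) ∧ s.card = f.natDegree ∧
    ∀ N : ℕ, 0 < N → ∀ a ∈ s, ∀ b ∈ s, a ^ N = b ^ N → a = b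

/-- One element of `Γ` acts on the representations with different irreducible characteristic
polynomials whose product is a `NeatPoly`; and for every `i` some element acts on the `i`-th
representation with a `NeatPoly` with a root in the field. -/
def GoodPolys {k : Type} [Field k] {ι : Type} [Fintype ι] {V : ι → Type}
    [∀ i, AddCommGroup (V i)] [∀ i, Module k (V i)] [∀ i, FiniteDimensional k (V i)] {Γ : Type}
    [Group Γ] (ρ : ∀ i, Representation k Γ (V i)) : Prop :=
  (∃ γ : Γ, (∀ i, Irreducible (ρ i γ).charpoly) ∧
    (∀ i j, i ≠ j → (ρ i γ).charpoly ≠ (ρ j γ).charpoly) ∧ NeatPoly (∏ i, (ρ i γ).charpoly)) ∧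
  ∀ i, ∃ γ : Γ, NeatPoly (ρ i γ).charpoly ∧ ∃ β, (ρ i γ).charpoly.IsRoot β

/-- **Theorem.** Let `M` be a direct sum of polarized motives of weight `w` with `End(M i) = ℚ`, such
that one element of `Γ` has an isolated pair of eigenvalues on each of them. The motivic Tate
conjecture holds for `M` (up to finite groups) if and only if the realization of `M` is semisimple and
the Tate conjecture holds for the endomorphisms of `M`. It holds if the conditions `GoodPolys` on
characteristic polynomials are satisfied. -/
theorem result {Γ : Type} [Group Γ] [TopologicalSpace Γ] [IsTopologicalGroup Γ] [CompactSpace Γ]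
    {ι : Type} [Fintype ι] [DecidableEq ι] {n : ι → ℕ} {ℓ : ℕ} [Fact ℓ.Prime] [Algebra ℚ_[ℓ] ℂ]
    (ρ : Reps Γ n ℓ) (hρ : Conts ρ) (w : ℤ) (hw : w ≠ 0 → Pure ρ w)
    (𝔤 : EndSpace n ℓ) (h𝔤 : Motivic ρ 𝔤) (hE : ScalarEnd 𝔤) (hb : Polarized ρ 𝔤 w)
    (hγ : IsolatedPairs ρ) :
    (AllTate ρ 𝔤 ↔ Semisimple ρ ∧ EndTate ρ 𝔤) ∧ (GoodPolys ρ → AllTate ρ 𝔤) := by
  have key : Semisimple ρ ∧ EndTate ρ 𝔤 → AllTate ρ 𝔤 := by
    rintro ⟨hss, hET⟩
    refine ⟨hss, ?_⟩
    obtain ⟨L, hLG, hL, hLie, hadj⟩ := Pool.Agent.R918.Ell.exists_L ρ hρ h𝔤 hss hET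
    refine Pool.Agent.R918.Ell.tate_of_eq h𝔤 (fun X hX => (hL X).1 hX) ?_
    obtain ⟨b, hbf, hbΓ, hb𝔤⟩ := hb
    obtain ⟨γ, n', s, α, hα, hp⟩ := hγ
    obtain ⟨c, hc, hinv⟩ := hbΓ γ
    -- conjugation by elements of `Γ`
    have hAd : ∀ X ∈ L, sumRep ρ γ * X * sumRep ρ γ⁻¹ ∈ L := by
      intro X hX
      obtain ⟨L', hL', -, hAd', -⟩ := Pool.Agent.Y41.RM.lieL' ℚ_[ℓ]
        (∀ i, Fin (n i) → ℚ_[ℓ]) Γ (sumRep ρ)
      have h1 : ∀ X, X ∈ L ↔ X ∈ L' := by
        intro X
        rw [hL, hL']
        exact ⟨fun h => Pool.Agent.R913.Adj.mem_LT_of_semisimple (sumRep ρ) hss h, fun h => h.2⟩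
      rw [h1] at hX ⊢
      exact hAd' γ X hX
    -- scalars
    have hone : w ≠ 0 → (1 : End ℂ (ℂ ⊗[ℚ_[ℓ]] (∀ i, Fin (n i) → ℚ_[ℓ]))) ∈ bcS ℂ L := by
      intro hw0
      obtain ⟨γ', hγ'⟩ := hw hw0
      have h2 : weightOp (k := ℚ_[ℓ]) (fun i : ι => Fin (n i) → ℚ_[ℓ]) (fun _ => w) ∈ L :=
        (hL _).2 fun m φ hφ => weight_kills ρ hss hγ' m φ hφ
      rw [Pool.Agent.R918.Ell.weightOp_const] at h2
      have h3 := L.smul_mem (w : ℚ_[ℓ])⁻¹ h2
      rw [smul_smul, inv_mul_cancel₀ (by exact_mod_cast hw0), one_smul] at h3
      have h4 : (1 : End ℚ_[ℓ] (∀ i, Fin (n i) → ℚ_[ℓ])).baseChange ℂ ∈ bcS ℂ L :=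
        Submodule.subset_span ⟨1, h3, rfl⟩
      rwa [LinearMap.baseChange_one] at h4
    -- signs
    have hsign : ∀ i, ∃ e : ℚ_[ℓ], e * e = 1 ∧ ∀ x y, b i x y = e * b i y x := by
      intro i
      rcases (hbf i).1 with h1 | h1
      · exact ⟨1, one_mul 1, fun x y => by rw [one_mul, h1]⟩
      · refine ⟨-1, by norm_num, fun x y => ?_⟩
        have h2 := h1 (x + y)
        rw [map_add, map_add, LinearMap.add_apply, LinearMap.add_apply, h1, h1] at h2
        linear_combination h2
    choose e he hs using hsign
    have hgi : sumRep ρ γ * sumRep ρ γ⁻¹ = 1 := by rw [← map_mul, mul_inv_cancel, map_one]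
    have hgi' : sumRep ρ γ⁻¹ * sumRep ρ γ = 1 := by rw [← map_mul, inv_mul_cancel, map_one]
    refine Pool.Agent.Helper43y.full_of_pairs (r := fun i => ρ i γ) h𝔤.parts h𝔤.semisimple ?_ hLG
      hLie hadj he hs (fun i => (hbf i).2) ?_ hgi hgi' hAd ?_ hc (fun i x y => hinv i (x i) (y i)) s
      (fun i p => α ⟨i, p⟩) hα ?_
    · intro i f hf
      obtain ⟨c, h1⟩ := hE i f fun X hX v => LinearMap.congr_fun (hf X hX) v
      exact ⟨c, LinearMap.ext fun v => h1 v⟩
    · intro X hX
      obtain ⟨c, h1, h2⟩ := hb𝔤 X hX
      exact ⟨c, fun h3 => hone fun h4 => h3 (h1 h4), h2⟩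
    · intro i v
      funext j
      change ρ j γ ((Pi.single i v : ∀ i, Fin (n i) → ℚ_[ℓ]) j) = _
      by_cases hj : j = i
      · subst hj
        rw [Pi.single_eq_same, Pi.single_eq_same]
      · rw [Pi.single_eq_of_ne hj, Pi.single_eq_of_ne hj, map_zero]
    · intro i
      obtain ⟨p, q, hpq, h1⟩ := hp i
      exact ⟨p, q, fun h2 => hpq (by rw [h2]), fun a b c d h2 => h1 a b c d h2⟩
  refine ⟨⟨?_, key⟩, fun h => key ?_⟩
  · rintro ⟨hss, h⟩
    exact ⟨hss, Pool.Agent.R918.Ell.endTate_of_tate (sumRep ρ) h⟩
  · exact Pool.Agent.R918.Ell.of_goodPolys ρ (IsMotivic.parts h𝔤) h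

end Pool.Agent.Results.MP_bbcdf5_ag.IsolatedPairMotives
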