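import Pool.Agent.HP25.FM.J

/-!
# MP_bbcdf5_ag: families of motives with connected monodromy: from one member at one prime number `ℓ₀` to all `ℓ`, for
# 100 percent of the members: by height, at the prime numbers, at the integers, at the prefixes of every normal number,
# at random and metric sequences

(helper49 and helper25)

Let `M` be the sum of finitely many families `M i` of pure motives of dimension `n i` and weight `w i` over an open
subset `U` of the projective line over `ℚ`, and let `𝔤` be the Lie algebra of the motivic Galois group of the generic
member (over an algebraically closed field), of rank at most `r`. The structure `Family` (starting library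
`Pool.Agent.N978.HP`) states the properties which are used: good reduction outside of the divisors of `m`, with pure
Frobenius polynomials in `ℚ[X]` which are independent of `ℓ` and depend only on the reduction of the parameter; `𝔤` is
reductive, and the tensors killed by `𝔤 ⊗ ℚ_ℓ` are Tate tensors. `FrobeniusReduction` says in addition that the
conjugacy class of Frobenius in the fundamental group `Γ` of `U` depends only on the reduction of the parameter.

Suppose that for ONE prime number `ℓ₀` and ONE rational point `t₀` of `U`
* the `ℓ₀`-adic image of the Galois group of `ℚ` on `M_{t₀}` is the one of `Γ`,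
* its Zariski closure is connected,
* it contains an element with `r` multiplicatively independent eigenvalues (for instance a Frobenius element, or if
  the Mumford-Tate conjecture holds at `ℓ₀`).

The member `M_t` is good if `t` is in `U`, the Galois group of `ℚ` has the full image at `ℓ₀` on `M_t`, and for EVERY prime
number `ℓ`:
* the `ℓ`-adic realization of `M_t` is semisimple over all finite extensions of `ℚ`;
* all Tate tensors of `M_t` at `ℓ` are motivated (that is, killed by `𝔤 ⊗ ℚ_ℓ`) if and only if all endomorphisms of the
  `ℓ`-adic realization which commute with the Galois group of `ℚ` itself are motivated;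
* the Lie algebra of the endomorphisms which kill all Tate tensors is a reductive subalgebra of `𝔤 ⊗ ℚ_ℓ` of rank at
  least `r`, and its center acts by scalars on each summand;
* if `𝔤` is of type A, all Tate tensors of `M_t` at `ℓ` are motivated: the motivic Galois group of `M_t` has the Lie algebra
  `𝔤`, and its identity component is the one of the Zariski closure of the image of the Galois group of `ℚ` (Q1 for
  identity components).

**Theorem** (`Everywhere`).

0. (Height.) 100 percent of the members, ordered by height, are good (helper49; the former hand-in `OneMemberOnePrime`,
   which is contained in this one).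
1. (Homogeneous coordinates.) For `x, v ∈ ℤ²` consider the member at the point with the homogeneous coordinates `x + v`.
   (`Usual`, for all `v` at once.) For every `M` and `ε > 0` there is a number `q` prime to `M` such that all the
   exceptional `x` are in `ε q²` residue classes modulo `q`. If the sequence `x_0, x_1, …` of integral vectors is
   * uniformly distributed modulo all `q` prime to some `M`,
   * or `x_n = (u_{ni} + ∑_{j < n} γ_{nij} δ_{ij})_i`, where the `δ_{ij}` are independent random integers, `|δ_{ij}| ≤ M`,
     no value has a probability larger than `1 - η`, `γ_{nij} ≠ 0` are any integers without prime factors larger than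
     `M` (for instance powers of a base `β ≤ M`), and `u_{ni}` are any integers,
   * or `x_n = (⌊β ^ n α_i⌋)_i` with a vector `α` normal to the base `β`,
   * or `x_n = (⌊a_{in} α_i + b_{in}⌋)_i` for any real numbers `a_{in}` with mutual distances at least `t > 0`, any real
     `b_{in}`, and `ν`-almost every `α`, `ν` a finite measure with Fourier transform `O(|ξ| ^ (-κ))`, `κ > 0`,
   then (almost surely) there is ONE set `E` of density zero such that for all `v` the members at `x_n + v` are good for
   all but finitely many `n ∉ E`. Moreover the random sums with `k` digits give good members with a probability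
   larger than `1 - ε` for `k ≥ k₀`, uniformly in the distributions, `γ` and `u`.
2. (Integers.) Let `(a, b; c, d)` be any integral matrix of determinant different from zero such that the point `(a : c)`
   is different from `t₀` (`Chart`). Everything in 1 is true for the members at the points `(a x + b : c x + d)`, `x ∈ ℤ`
   (with one set `E` for all these matrices). So if `t₀ ≠ ∞`, the members at 100 percent of the integers are good, those
   at the integers `⌊β ^ n α⌋` are good for 100 percent of the `n`, for EVERY number `α` normal to the base `β`,
   and so on.
3. (Prime numbers.) If moreover `(b : d)` is different from `t₀`, then the members at the points `(a p + b : c p + d)` are good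
   for 100 percent of the prime numbers `p`. So if `t₀ ≠ 0, ∞`, the members at 100 percent of the prime numbers are good.

And if `𝔤` is of type A, the Tate tensors of the generic member, over the field of rational functions, are
motivated, for EVERY prime number `ℓ`.

There is no condition on the local monodromy (in `RegularCuspFamilies`, among the starting results on this page, the
monodromy at a cusp is regular unipotent), and nothing is assumed at the prime numbers `ℓ ≠ ℓ₀`. The known results on
the exceptional members of a family (Serre, Terasoma, André, Cadoret-Tamagawa) are for one `ℓ`; independence of `ℓ` of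
the exceptional set is known for abelian schemes (Hui).

## The proof

The member `M_t` is good if `t` is congruent to `t₀` modulo one prime number for each conjugacy class of a finite
quotient of the image at `ℓ₀` (the prime number being one whose Frobenius element is in this class for `M_{t₀}`), and modulo
two prime numbers of maximal rank (helper49: libraries `Pool.Agent.Helper49C`, `Pool.Agent.Helper49D`). By Chebotarev's
theorem the prime numbers which can be used have positive density, and only the divergence of the sum of their
inverses is used (`Pool.Agent.HP25.FM.B`, `F`, for an arbitrary notion of almost all points for which a sieve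
holds); the two primes are found by a division of the set of primes in two parts (`A`). So the exceptional vectors
and integers are pronull sets (`C`), and the engine `Pool.Agent.HP25.TW` applies (`G`, `I`); for prime numbers the
prime number theorem for arithmetic progressions is used (`D`, `E`).
-/

set_option autoImplicit false

namespace Pool.Agent.Results.MP_bbcdf5_ag.MembersAtPrimeNumbers

open Polynomial Module Pool.Agent.Y114.RM Pool.Agent.R931.IR Pool.Agent.N203.RE
  Pool.Agent.N978.HP Pool.Agent.Helper49D Pool.Agent.HP25.FM

theorem result {Γ : Type} [Group Γ] [TopologicalSpace Γ] {ι : Type} [Fintype ι] [DecidableEq ι]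
    {n : ι → ℕ}
    -- the family over `U` and its motivic Lie algebra, of rank at most `r`
    (s : Pt → Gal(AlgebraicClosure ℚ/ℚ) →* Γ) (w : ι → ℤ) (m : ℕ) (D : MvPolynomial (Fin 2) ℤ)
    (P : ℕ → Pt → ι → ℚ[X]) (ρ : ∀ (ℓ : ℕ) [Fact ℓ.Prime], Reps Γ n ℓ)
    (𝔤 : Submodule ℚ (End ℚ (Betti n))) (h : Family s w m D P ρ 𝔤)
    (hF : FrobeniusReduction s m D ρ) (r : ℕ) (hr : RatRankLE 𝔤 r)
    -- one member, one prime number: full image, connected, with one element of maximal rank
    (t₀ : Pt) (ht₀ : InU D t₀) (c : ℕ) (hc : IntegralMember m D P c t₀)
    (ℓ₀ : ℕ) [Fact ℓ₀.Prime] (hfull : FullImage (ρ ℓ₀) (s t₀))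
    (hconn : Connected (restrictTo (ρ ℓ₀) (s t₀))) (σ : Gal(AlgebraicClosure ℚ/ℚ))
    (hσ : IndependentEigenvalues (restrictTo (ρ ℓ₀) (s t₀)) σ r) :
    -- almost all members, every prime number
    Everywhere t₀ (fun t => InU D t ∧ FullImage (ρ ℓ₀) (s t) ∧ ∀ (ℓ : ℕ) [Fact ℓ.Prime],
      Semisimple (restrictTo (ρ ℓ) (s t)) ∧
      (TateMotivated (restrictTo (ρ ℓ) (s t)) 𝔤 ↔ EndosMotivated (restrictTo (ρ ℓ) (s t)) 𝔤) ∧
      LargeRank (restrictTo (ρ ℓ) (s t)) 𝔤 r ∧
      (TypeA 𝔤 → TateMotivated (restrictTo (ρ ℓ) (s t)) 𝔤)) ∧
    -- the generic member
    (TypeA 𝔤 → ∀ (ℓ : ℕ) [Fact ℓ.Prime], TateMotivated (ρ ℓ) 𝔤) :=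
  connected s w m D P ρ 𝔤 h hF r hr t₀ ht₀ c hc ℓ₀ hfull hconn σ hσ

end Pool.Agent.Results.MP_bbcdf5_ag.MembersAtPrimeNumbers
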