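import Mathlib
import Pool.Agent.Helper49N.Mot
import Pool.Agent.R918.Ell2

/-!
# The motivic Tate conjecture and the endomorphisms of the square of a motive

Let `k` be a finitely generated field of characteristic zero and let `M i` be finitely many motives over
`k` (of André, or for absolute Hodge cycles); let `V i = ℚ_ℓ ^ (n i)` be their `ℓ`-adic realizations, with
the actions `ρ i` of the Galois group `Γ` of `k`, and let `M` be the direct sum of the `M i`, with
realization `V`. Let `𝔤` be the Lie algebra of the `ℓ`-adic motivic Galois group of `M`; it acts on `V`. It is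
reductive, it is determined by the tensors which it kills, and these are Tate tensors, since
motivated classes are Tate classes (these properties are collected in `IsMotivic`, see `Motivic`).

The motivic Tate conjecture for `M`, up to finite groups (equivalently, the motivic Mumford-Tate
conjecture, which is equivalent to the motivic Tate conjecture, see the problem), says that the
representation of `Γ` is semisimple, and that the Tate tensors (in any number of variables, in `V` and
its dual space, fixed by a subgroup of finite index of `Γ`) are exactly the tensors killed by `𝔤`;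
equivalently, the identity component of the `ℓ`-adic monodromy group is the identity component of the
motivic Galois group (`AllTate`).

**Theorem.** Let `M` be any motive. The conjecture holds for `M` (and so for all motives in the tensor
category generated by `M`, over all finite extensions of `k`) if and only if

* the realization of `M` is semisimple (`Semisimple`),
* the Tate conjecture holds for the endomorphisms of `M` over all finite extensions of `k` (`EndTate`),
* the Tate conjecture holds for the endomorphisms of `Sym² M` and of `Λ² M` over `k` ITSELF (`SquareTate`: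
  the endomorphisms of `V ⊗ V` which commute with the whole group `Γ` and with the exchange of the two
  factors commute with `𝔤`),
* the Tate conjecture holds for the potentially abelian objects (`AbelianTate`: the Tate tensors which
  are killed by the brackets of `𝔤` are killed by `𝔤`).

If the first three conditions hold, the Lie algebra of the `ℓ`-adic monodromy group of `M` differs from
`𝔤` only in the centre (`UpToCentre`): every element of `𝔤` is the sum of an element of `𝔤` which kills all
Tate tensors and a central element of `𝔤`; and the brackets of elements of `𝔤` kill all Tate tensors.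

If the centre of `𝔤` consists of multiples of the weight operator (`CentreIsWeights`; the weights `w i` are
seen by one element `γ` of `Γ`, for instance a Frobenius element), the last condition can be omitted:
the conjecture is equivalent to semisimplicity, the Tate conjecture for `End(M)` over finite extensions,
and the Tate conjecture for `End(Sym² M)` and `End(Λ² M)` over `k`.

There is no condition on the dimension, the Hodge numbers, the type of the motivic Galois group, or the
Frobenius elements. If the centre of `𝔤` is given by the weights and the conjecture fails for `M`, then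
the realization is not semisimple, or there is an exotic Tate endomorphism of `M` over a finite
extension, or an exotic Tate endomorphism of `M ⊗ M`, defined over `k`.

Larsen's alternative (Larsen, Katz) is the case of the full groups `GL`, `Sp`, `O`, formulated with
moments: a group with the same fourth moment contains the derived group, or is finite up to scalars;
the second possibility is excluded here by the condition on the endomorphisms over finite extensions.
The library `Pool.Agent.R913.Adj` contains a weaker theorem: the brackets of `𝔤` kill all Tate tensors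
if all linear maps `End(V i) → End(V j)` which commute with some subgroup of finite index commute with
`𝔤` (over all finite extensions, without symmetry, and with no converse).

## Proof

Let `L` be the Lie algebra of the endomorphisms of `V` which kill all Tate tensors. It is contained in
`𝔤`, it is normalized by `Γ`, and its trace form is not degenerate, by semisimplicity. Let
`c = ∑ x_i ⊗ y_i` be its Casimir operator on `V ⊗ V` (dual bases for the trace form). It commutes with `Γ`
and with the exchange of the factors. So the elements `X` of `𝔤` commute with `c` on `V ⊗ V`; this implies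
that `X` normalizes `L` (`norm_of_comm`: contract `c` with rank one operators; `c` is the orthogonal
projection `End V → L`). Then the component of `X` orthogonal to `L` commutes with `L`, hence with an
open subgroup of `Γ`, and by the condition on the endomorphisms it commutes with `𝔤`.
-/

open Module TensorProduct

noncomputable section

namespace Pool.Agent.Results.MP_bbcdf5_ag.TensorSquare

open Pool.Agent.Y114.TF Pool.Agent.Y114.RM Pool.Agent.H204R3.GP Pool.Agent.R913.Adj

/-! ### Representations and the motivic Lie algebra -/

section tate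

variable {k V Γ : Type} [Field k] [AddCommGroup V] [Module k V] [Group Γ]
  (ρ : Representation k Γ V) (𝔤 : Submodule k (End k V))

/-- The representation is semisimple under all subgroups of finite index, and the Tate tensors are the
tensors killed by `𝔤`. -/
def IsFull : Prop :=
  FiniteIndexSemisimple ρ ∧
    ∀ (m : ℕ) (φ : Tensor k V m), TateTensor ρ φ ↔ ∀ X ∈ 𝔤, KillsTensor X φ

/-- An endomorphism which commutes with a subgroup of finite index of `Γ` commutes with `𝔤`. -/
def IsEndTate : Prop :=
  ∀ P : End k V, (∃ Δ : Subgroup Γ, Δ.FiniteIndex ∧ ∀ γ ∈ Δ, P * ρ γ = ρ γ * P) →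
    ∀ X ∈ 𝔤, X * P = P * X

/-- The endomorphism `P` of `V ⊗ V` commutes with the whole group `Γ`. -/
def CommutesWithGroup (P : End k (V ⊗[k] V)) : Prop :=
  ∀ γ : Γ, P * TensorProduct.map (ρ γ) (ρ γ) = TensorProduct.map (ρ γ) (ρ γ) * P

/-- The endomorphism `P` of `V ⊗ V` commutes with the exchange of the two factors; so it is given by an
endomorphism of the symmetric square and one of the exterior square of `V`. -/
def CommutesWithSwap (P : End k (V ⊗[k] V)) : Prop :=
  ∀ u w : V, TensorProduct.comm k V V (P (u ⊗ₜ[k] w)) = P (w ⊗ₜ[k] u)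

/-- The action of the element `X` of a Lie algebra on `V ⊗ V`: `X ⊗ 1 + 1 ⊗ X`. -/
def onSquare (X : End k V) : End k (V ⊗[k] V) := X.rTensor V + X.lTensor V

/-- The endomorphisms of `V ⊗ V` which commute with the whole group `Γ` and with the exchange of the
factors commute with `𝔤`. -/
def IsSquareTate : Prop :=
  ∀ P : End k (V ⊗[k] V), CommutesWithGroup ρ P → CommutesWithSwap P →
    ∀ X ∈ 𝔤, P * onSquare X = onSquare X * P

/-- The Tate tensors which are killed by all brackets of elements of `𝔤` are killed by `𝔤`. -/
def IsAbelianTate : Prop := ∀ (m : ℕ) (φ : Tensor k V m), TateTensor ρ φ →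
  (∀ X ∈ 𝔤, ∀ Y ∈ 𝔤, KillsTensor (X * Y - Y * X) φ) → ∀ X ∈ 𝔤, KillsTensor X φ

/-- `A` kills all Tate tensors. -/
def KillsAllTate (A : End k V) : Prop := ∀ (m : ℕ) (φ : Tensor k V m), TateTensor ρ φ → KillsTensor A φ

/-- Every element `X` of `𝔤` is the sum of an element `A` of `𝔤` which kills all Tate tensors and an
element of the centre of `𝔤`, and the brackets of elements of `𝔤` kill all Tate tensors. -/
def IsUpToCentre : Prop :=
  (∀ X ∈ 𝔤, ∃ A ∈ 𝔤, KillsAllTate ρ A ∧ X - A ∈ 𝔤 ∧ ∀ Y ∈ 𝔤, (X - A) * Y = Y * (X - A)) ∧
    ∀ X ∈ 𝔤, ∀ Y ∈ 𝔤, KillsAllTate ρ (X * Y - Y * X)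

end tate

section props

variable (Γ : Type) [Group Γ] {ι : Type} (n : ι → ℕ) (ℓ : ℕ) [Fact ℓ.Prime]

/-- Representations of `Γ` on the spaces `ℚ_ℓ ^ (n i)`. -/
abbrev Reps : Type := ∀ i, Representation ℚ_[ℓ] Γ (Fin (n i) → ℚ_[ℓ])

/-- Spaces of endomorphisms of the direct sum of the spaces `ℚ_ℓ ^ (n i)`. -/
abbrev EndSpace : Type := Submodule ℚ_[ℓ] (End ℚ_[ℓ] (∀ i, Fin (n i) → ℚ_[ℓ]))

variable {Γ n ℓ} (ρ : Reps Γ n ℓ) (𝔤 : EndSpace n ℓ)

/-- The representations are continuous. -/
def Conts [TopologicalSpace Γ] : Prop := ∀ i, Continuous fun g => LinearMap.toMatrix' (ρ i g)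

/-- The weights are seen by an element of `Γ` (if one of them is not zero): its characteristic polynomial
on `V i` is rational, with all roots of absolute value `q ^ (w i / 2)`, for some `q > 1`. -/
def HasWeights (w : ι → ℤ) : Prop := (∃ i, w i ≠ 0) → ∃ γ : Γ, ActsPurely ρ w γ

variable [Fintype ι] [DecidableEq ι]

/-- The elements of the centre of `𝔤` are multiples of the weight operator (multiplication by `w i` on
the `i`-th summand). -/
def CentreIsWeights (w : ι → ℤ) : Prop :=
  ∀ Z ∈ 𝔤, (∀ Y ∈ 𝔤, Z * Y = Y * Z) → ∃ c : ℚ_[ℓ], ∀ x i, Z x i = (c * w i) • x i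

/-- `𝔤` has the properties of the Lie algebra of the motivic Galois group (see `IsMotivic`). -/
def Motivic : Prop := IsMotivic ρ 𝔤

/-- The direct sum is semisimple as a representation of every subgroup of finite index. -/
def Semisimple : Prop := FiniteIndexSemisimple (sumRep ρ)

/-- The conjecture for the direct sum (see `IsFull`). -/
def AllTate : Prop := IsFull (sumRep ρ) 𝔤

/-- The Tate conjecture for the endomorphisms of the direct sum, over finite extensions (see
`IsEndTate`). -/
def EndTate : Prop := IsEndTate (sumRep ρ) 𝔤

/-- The Tate conjecture for the endomorphisms of the symmetric and the exterior square of the direct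
sum, over the base field (see `IsSquareTate`). -/
def SquareTate : Prop := IsSquareTate (sumRep ρ) 𝔤

/-- The Tate conjecture for the potentially abelian objects (see `IsAbelianTate`). -/
def AbelianTate : Prop := IsAbelianTate (sumRep ρ) 𝔤

/-- The conjecture holds up to the centre (see `IsUpToCentre`). -/
def UpToCentre : Prop := IsUpToCentre (sumRep ρ) 𝔤

end props

/-- **Theorem.** Let `M` be a direct sum of motives. (1) The motivic Tate conjecture holds for `M` (up to
finite groups) if and only if its realization is semisimple, the Tate conjecture holds for the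
endomorphisms of `M` over finite extensions, for the endomorphisms of the symmetric and the exterior
square of `M` over the base field, and for the potentially abelian objects. (2) The first three
conditions imply that the conjecture holds up to the centre. (3) If the centre of the motivic Lie
algebra is given by the weights, the last condition can be omitted in (1). -/
theorem result {Γ : Type} [Group Γ] [TopologicalSpace Γ] [IsTopologicalGroup Γ] [CompactSpace Γ]
    {ι : Type} [Fintype ι] [DecidableEq ι] {n : ι → ℕ} {ℓ : ℕ} [Fact ℓ.Prime]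
    (ρ : Reps Γ n ℓ) (hρ : Conts ρ) (𝔤 : EndSpace n ℓ) (h𝔤 : Motivic ρ 𝔤) :
    (AllTate ρ 𝔤 ↔ Semisimple ρ ∧ EndTate ρ 𝔤 ∧ SquareTate ρ 𝔤 ∧ AbelianTate ρ 𝔤) ∧
    (Semisimple ρ ∧ EndTate ρ 𝔤 ∧ SquareTate ρ 𝔤 → UpToCentre ρ 𝔤) ∧
    (∀ w : ι → ℤ, HasWeights ρ w → CentreIsWeights 𝔤 w →
      (AllTate ρ 𝔤 ↔ Semisimple ρ ∧ EndTate ρ 𝔤 ∧ SquareTate ρ 𝔤)) := by
  have fwd : AllTate ρ 𝔤 → Semisimple ρ ∧ EndTate ρ 𝔤 ∧ SquareTate ρ 𝔤 ∧ AbelianTate ρ 𝔤 := by
    rintro ⟨hss, h⟩
    exact ⟨hss, Pool.Agent.R918.Ell.endTate_of_tate (sumRep ρ) h,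
      Pool.Agent.Helper49N.sqTate_of (sumRep ρ) fun φ hφ => (h 4 φ).1 hφ,
      fun m φ hφ _ => (h m φ).1 hφ⟩
  have split : Semisimple ρ ∧ EndTate ρ 𝔤 ∧ SquareTate ρ 𝔤 → UpToCentre ρ 𝔤 := by
    rintro ⟨hss, hE, hS⟩
    have h1 := Pool.Agent.Helper49N.exists_split ρ hρ h𝔤 hss hE hS
    refine ⟨fun X hX => ?_, fun X hX Y hY => ?_⟩
    · obtain ⟨A, hA, hA𝔤, hc, hcc⟩ := h1 X hX
      exact ⟨A, hA𝔤, hA, hc, hcc⟩
    · obtain ⟨A, hA, hA𝔤, hc, hcc⟩ := h1 X hX
      obtain ⟨B, hB, hB𝔤, hd, hdc⟩ := h1 Y hY
      have e1 : X * Y - Y * X = A * B - B * A := by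
        have e2 := hcc Y hY
        have e3 := hdc A hA𝔤
        have e4 : X * Y - Y * X = ((X - A) * Y - Y * (X - A)) - ((Y - B) * A - A * (Y - B)) +
            (A * B - B * A) := by
          simp only [sub_mul, mul_sub]
          abel
        rw [e4, e2, e3, sub_self, sub_self, sub_zero, zero_add]
      rw [e1]
      obtain ⟨L, hL, hLie, -, -⟩ := Pool.Agent.Y41.RM.lieL' ℚ_[ℓ] (∀ i, Fin (n i) → ℚ_[ℓ]) Γ
        (sumRep ρ)
      have hAL : A ∈ L := (hL A).2 (mem_LT_of_semisimple (sumRep ρ) hss hA)
      have hBL : B ∈ L := (hL B).2 (mem_LT_of_semisimple (sumRep ρ) hss hB)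
      exact fun m φ hφ => ((hL _).1 (hLie A hAL B hBL)).2 m φ hφ
  refine ⟨⟨fwd, ?_⟩, split, fun w hw hcw => ⟨fun h => ?_, ?_⟩⟩
  · rintro ⟨hss, hE, hS, hA⟩
    obtain ⟨-, h2⟩ := split ⟨hss, hE, hS⟩
    exact ⟨hss, fun m φ => ⟨fun hφ => hA m φ hφ fun X hX Y hY => h2 X hX Y hY m φ hφ,
      IsMotivic.tate h𝔤 m φ⟩⟩
  · obtain ⟨h1, h2, h3, -⟩ := fwd h
    exact ⟨h1, h2, h3⟩
  · rintro ⟨hss, hE, hS⟩
    obtain ⟨h1, -⟩ := split ⟨hss, hE, hS⟩
    refine ⟨hss, fun m φ => ⟨fun hφ X hX => ?_, IsMotivic.tate h𝔤 m φ⟩⟩
    obtain ⟨A, hA𝔤, hA, hc, hcc⟩ := h1 X hX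
    obtain ⟨c, hc'⟩ := hcw _ hc hcc
    obtain ⟨L, hL, -, -, -⟩ := Pool.Agent.Y41.RM.lieL' ℚ_[ℓ] (∀ i, Fin (n i) → ℚ_[ℓ]) Γ (sumRep ρ)
    have hAL : A ∈ L := (hL A).2 (mem_LT_of_semisimple (sumRep ρ) hss hA)
    have hW : weightOp (k := ℚ_[ℓ]) (fun i => Fin (n i) → ℚ_[ℓ]) w ∈ L := by
      by_cases h0 : ∃ i, w i ≠ 0
      · obtain ⟨γ, hγ⟩ := hw h0
        exact (hL _).2 (mem_LT_of_semisimple (sumRep ρ) hss fun m φ hφ =>
          weight_kills ρ hss hγ m φ hφ)
      · have h2 : weightOp (k := ℚ_[ℓ]) (fun i => Fin (n i) → ℚ_[ℓ]) w = 0 := by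
          refine LinearMap.ext fun x => funext fun i => ?_
          change ((w i : ℤ) : ℚ_[ℓ]) • x i = 0
          rw [not_not.1 (not_exists.1 h0 i), Int.cast_zero, zero_smul]
        rw [h2]
        exact L.zero_mem
    have hXe : X = A + c • weightOp (k := ℚ_[ℓ]) (fun i => Fin (n i) → ℚ_[ℓ]) w := by
      refine LinearMap.ext fun x => funext fun i => ?_
      have h3 := hc' x i
      rw [LinearMap.sub_apply, Pi.sub_apply, sub_eq_iff_eq_add] at h3
      rw [h3, LinearMap.add_apply, Pi.add_apply, LinearMap.smul_apply, Pi.smul_apply, add_comm]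
      congr 1
      change _ = c • (((w i : ℤ) : ℚ_[ℓ]) • x i)
      rw [smul_smul]
    rw [hXe]
    exact ((hL _).1 (L.add_mem hAL (L.smul_mem c hW))).2 m φ hφ

end Pool.Agent.Results.MP_bbcdf5_ag.TensorSquare
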